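import Pool.Agent.Y877.SxP
import Pool.Agent.Y877.SxJ

/-!
# `N - q` and `p_{q+2} + h` prime for `q` in an arbitrary dense set of primes, for almost all pairs `(N, h)`

The question asks, for every even `N = 2 n > 4`, for a prime `q` such that `N - q` and `p_{q+2} + 2` are primes. Let `S` be an
ARBITRARY set of primes up to `x` with at least `x / log ^ A x` elements, and let `M` be the product of the primes up to `y`,
where `y` lies between `K₀ log log x` and `K₁ log log x`. Then for almost all pairs of multiples `N`, `h` of `M`, `N` in an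
arbitrary window in `[x, 2 x]` and `h` in an arbitrary window in `[0, x]` of lengths at least `x / log ^ C x`, the number of the
`q ∈ S` such that `N - q` and `p_{q+2} + h` are both primes is at least `1 - ε` times the expected number
`#S / (V log x) ^ 2`, `V = ∏_{p ≤ y} (1 - 1 / p)`.

From Mathlib: `primorial y`: the product of the primes `≤ y`; `Nat.nth Nat.Prime k`: the prime `p_{k+1}`. The proof joins the
theorems `step` and `step_neg` of the library of the starting files (`Pool.Agent.Y877.SX`) for sums and differences.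
-/

set_option autoImplicit false

open Finset

namespace Pool.Agent.Results.MP_0ec542_nt.ArbitrarySetsPairs

/-- the product of `1 - 1/p` over the primes `p ≤ y` -/
noncomputable def V (y : ℕ) : ℝ := ∏ p ∈ (Icc 1 y).filter Nat.Prime, (1 - 1 / (p : ℝ))

open Classical in
/-- The `q ∈ S` such that `N - q` and `p_{q+2} + h` are primes (`p_{q+2}` is the prime number `q + 2`, counted from `p_1 = 2`). -/
noncomputable def Good (S : Finset ℕ) (N h : ℕ) : Finset ℕ :=
  S.filter (fun q => (Nat.nth Nat.Prime (q + 1) + h).Prime ∧ (N - q).Prime)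

theorem nth_inj : Function.Injective (Nat.nth Nat.Prime) := Nat.nth_injective Nat.infinite_setOfPred_prime

/-- For all `A`, `C` and `0 < ε ≤ 1` there is `K₀` such that for every `K₁`, every large `x` and every `y` between
`K₀ log log x` and `K₁ log log x`, with `M` the product of the primes `≤ y`: for EVERY set `S` of at least `x / log ^ A x` primes
`q ≤ x`, all windows `(g₀, g₀ + G]`, `(k₀, k₀ + L]` with `M (g₀ + G) ≤ x`, `x ≤ M k₀`, `M (k₀ + L) ≤ 2 x` and
`M G, M L ≥ x / log ^ C x`, for all but at most `ε G L` of the pairs `(g, k)`, `g ≤ G`, `k ≤ L`, there are at least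
`(1 - ε) #S / (V y log x) ^ 2` elements `q` of `S` such that, with `N = M (k₀ + k)` and `h = M (g₀ + g)`, both `N - q` and
`p_{q+2} + h` are primes. -/
theorem result (A C : ℕ) (ε : ℝ) (hε : 0 < ε) (hε1 : ε ≤ 1) : ∃ K₀ : ℕ, ∀ K₁ : ℕ, ∃ x₀ : ℕ, ∀ x : ℕ, x₀ ≤ x →
    ∀ y : ℕ, K₀ * Real.log (Real.log x) ≤ y → y ≤ K₁ * Real.log (Real.log x) →
    ∀ S : Finset ℕ, (∀ q ∈ S, q.Prime ∧ q ≤ x) → (x : ℝ) ≤ S.card * Real.log x ^ A →
    ∀ g₀ G k₀ L : ℕ, primorial y * (g₀ + G) ≤ x → (x : ℝ) ≤ primorial y * G * Real.log x ^ C →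
    x ≤ primorial y * k₀ → primorial y * (k₀ + L) ≤ 2 * x → (x : ℝ) ≤ primorial y * L * Real.log x ^ C →
      (((Icc 1 G ×ˢ Icc 1 L).filter (fun g : ℕ × ℕ =>
        ((Good S (primorial y * (k₀ + g.2)) (primorial y * (g₀ + g.1))).card : ℝ) <
        (1 - ε) * (S.card / (V y * Real.log x) ^ 2))).card : ℝ) ≤ ε * (G * L) := by
  classical
  obtain ⟨K0, hK0⟩ := Pool.Agent.Y877.SX.step 1 (Or.inl rfl) A 2 C (ε / 2) (by positivity) (by linarith)
  obtain ⟨K0', hK0'⟩ := Pool.Agent.Y877.SX.step_neg 1 (Or.inl rfl) (A + 2) C (ε / 2) (by positivity) (by linarith)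
  refine ⟨max K0 K0', fun K1 => ?_⟩
  obtain ⟨n0, hn0⟩ := hK0 K1
  obtain ⟨n0', hn0'⟩ := hK0' K1
  obtain ⟨n1, hn1⟩ := Pool.Agent.H373R2.T7.ev_L' (max 4 (Real.exp 1))
  obtain ⟨n2, hn2⟩ := Pool.Agent.Y877.SX.nth_le_log
  refine ⟨max n0 (max n0' (max n1 (max n2 1))), fun x hx y hy1 hy2 S hS hSc g₀ G k₀ L a1 a2 a3 a4 a5 => ?_⟩
  have b1 : n0 ≤ x := le_trans (le_max_left _ _) hx
  have b2 : n0' ≤ x := le_trans (le_trans (le_max_left _ _) (le_max_right _ _)) hx
  have b3 : n1 ≤ x := le_trans (le_trans (le_trans (le_max_left _ _) (le_max_right _ _)) (le_max_right _ _)) hx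
  have b4 : n2 ≤ x := le_trans (le_trans (le_trans (le_trans (le_max_left _ _) (le_max_right _ _)) (le_max_right _ _))
    (le_max_right _ _)) hx
  have b5 : 1 ≤ x := le_trans (le_trans (le_trans (le_trans (le_max_right _ _) (le_max_right _ _)) (le_max_right _ _))
    (le_max_right _ _)) hx
  have hL' := hn1 x b3
  have hL : 4 ≤ Real.log x := (le_max_left _ _).trans hL'
  have hL0 : 0 < Real.log x := by linarith
  have hlL : 0 ≤ Real.log (Real.log x) := Real.log_nonneg (by linarith)
  have hy1a : (K0 : ℝ) * Real.log (Real.log x) ≤ y :=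
    le_trans (mul_le_mul_of_nonneg_right (by exact_mod_cast le_max_left _ _) hlL) hy1
  have hy1b : (K0' : ℝ) * Real.log (Real.log x) ≤ y :=
    le_trans (mul_le_mul_of_nonneg_right (by exact_mod_cast le_max_right _ _) hlL) hy1
  have hVy : 0 < V y := Pool.Agent.H373R2.T7.Vz_pos y
  have hVy1 : V y ≤ 1 := Pool.Agent.H373R2.T7.Vz_le_one y
  have k1 := hn0 x b1 y hy1a hy2 S hSc (fun q => Nat.nth Nat.Prime (q + 1))
    (fun a _ b _ hab => by
      have := nth_inj hab
      omega)
    (fun q hq => ⟨Nat.prime_nth_prime _, hn2 x b4 (q + 1) (by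
      have := (hS q hq).2
      omega)⟩) g₀ G (by rw [pow_one]; exact a1) (by rw [pow_one]; exact a2)
  simp only [pow_one, Nat.cast_one, one_mul] at k1
  obtain ⟨P, hP⟩ : ∃ P : ℕ → ℕ → Prop, ∀ a b, P a b ↔
      ((Good S (primorial y * (k₀ + b)) (primorial y * (g₀ + a))).card : ℝ) <
        (1 - ε) * (S.card / (V y * Real.log x) ^ 2) := ⟨_, fun _ _ => Iff.rfl⟩
  have hfub := Pool.Agent.Y877.SX.fub (Icc 1 G) (Icc 1 L) P ((Icc 1 G).filter (fun g =>
      ((S.filter (fun j => (Nat.nth Nat.Prime (j + 1) + primorial y * (g₀ + g)).Prime)).card : ℝ) <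
      (1 - ε / 2) * (S.card / (V y * Real.log x)))) (ε / 2) (ε / 2) (by positivity) (by
        refine le_trans (le_of_eq ?_) (k1.trans (le_of_eq ?_))
        · rfl
        · simp) (by
      intro a ha hab
      have hge : (1 - ε / 2) * (S.card / (V y * Real.log x)) ≤
          ((S.filter (fun j => (Nat.nth Nat.Prime (j + 1) + primorial y * (g₀ + a)).Prime)).card : ℝ) := by
        by_contra hcon
        push Not at hcon
        exact hab (mem_filter.2 ⟨ha, hcon⟩)
      obtain ⟨J', hJ'⟩ : ∃ J', J' = S.filter (fun j => (Nat.nth Nat.Prime (j + 1) + primorial y * (g₀ + a)).Prime) :=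
        ⟨_, rfl⟩
      rw [← hJ'] at hge
      have hsubJ : J' ⊆ S := by rw [hJ']; exact filter_subset _ _
      have hd := Pool.Agent.Y877.SX.dens A 1 (Or.inl rfl) x S.card J'.card (Real.log x) (V y) (ε / 2) hL hVy hVy1
        (by linarith) (Nat.cast_nonneg _) hSc (by rw [Nat.cast_one, one_mul]; exact hge)
      have k2 := hn0' x b2 y hy1b hy2 J' (fun q hq => by
          have := hS q (hsubJ hq)
          exact mem_Icc.2 ⟨this.1.pos, this.2⟩) (fun q hq => (hS q (hsubJ hq)).1) hd k₀ L
        (by rw [pow_one]; exact a3) (by rw [pow_one]; exact a4) (by rw [pow_one]; exact a5)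
      simp only [pow_one, Nat.cast_one, one_mul] at k2
      refine le_trans ?_ (k2.trans (le_of_eq (by simp)))
      have hsub : (Icc 1 L).filter (fun b => P a b) ⊆ (Icc 1 L).filter (fun g =>
          ((J'.filter (fun s => (primorial y * (k₀ + g) - s).Prime)).card : ℝ) <
          (1 - ε / 2) * (J'.card / (V y * Real.log x))) := by
        intro b hb
        rw [mem_filter] at hb ⊢
        refine ⟨hb.1, ?_⟩
        have h3 := (hP a b).1 hb.2
        have h4 : J'.filter (fun s => (primorial y * (k₀ + b) - s).Prime) =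
            Good S (primorial y * (k₀ + b)) (primorial y * (g₀ + a)) := by
          rw [hJ', filter_filter]
          rfl
        rw [h4]
        refine lt_of_lt_of_le h3 ?_
        have h5 : (1 - ε / 2) * (S.card / (V y * Real.log x)) / (V y * Real.log x) ≤ J'.card / (V y * Real.log x) :=
          div_le_div_of_nonneg_right hge (by positivity)
        have h6 : (1 - ε / 2) * ((1 - ε / 2) * (S.card / (V y * Real.log x)) / (V y * Real.log x)) ≤
            (1 - ε / 2) * (J'.card / (V y * Real.log x)) := mul_le_mul_of_nonneg_left h5 (by linarith)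
        refine le_trans ?_ h6
        have h7 : (1 - ε / 2) * ((1 - ε / 2) * ((S.card : ℝ) / (V y * Real.log x)) / (V y * Real.log x)) =
            (1 - ε / 2) ^ 2 * (S.card / (V y * Real.log x) ^ 2) := by
          field_simp
        rw [h7]
        apply mul_le_mul_of_nonneg_right _ (by positivity)
        nlinarith
      exact_mod_cast card_le_card hsub)
  have hfe : (Icc 1 G ×ˢ Icc 1 L).filter (fun g : ℕ × ℕ =>
        ((Good S (primorial y * (k₀ + g.2)) (primorial y * (g₀ + g.1))).card : ℝ) <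
        (1 - ε) * (S.card / (V y * Real.log x) ^ 2)) = (Icc 1 G ×ˢ Icc 1 L).filter (fun g => P g.1 g.2) := by
    ext g
    rw [mem_filter, mem_filter, hP]
  rw [hfe]
  refine hfub.trans (le_of_eq ?_)
  simp only [Nat.card_Icc, Nat.add_sub_cancel]
  ring

end Pool.Agent.Results.MP_0ec542_nt.ArbitrarySetsPairs
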