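import Pool.Agent.Results.MP_0ec542_nt.ChenIndexShifts
import Pool.Agent.Results.MP_dd84fd_nt.ChenAvoidingClasses

/-!
# EVERY even `2 n`: `2 n - q = P₂`, `q` avoiding arbitrary classes (or `f (q)` almost prime), and `p_{q+2} + h` prime for almost all `h`

The question asks, for every `n > 2`, for a prime `q` such that `2 n - q` and `p_{q+2} + 2` are primes. Here, for EVERY large `n`:

* `2 n - q` has at most two prime factors, all of them larger than `n ^ (1/9)`;
* `q` lies in an arbitrary interval of length at least `θ n` and avoids arbitrary `r` residue classes modulo every prime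
  `l ≤ (2 n) ^ (1/t)`; or, instead of this, `f (q)` is almost prime for an arbitrary polynomial `f` of degree at most `r` with
  coefficients at most `(2 n) ^ m`, which may depend on `n` (for example `q + 2`, or `q ^ 2 + q + 1`);
* the number of these `q` has at least the expected order, and for almost all `h` of every short window of the multiples of
  a small primorial, the expected proportion of them are such that `p_{q+2} + h` is prime.

From Mathlib: `primorial y`: the product of the primes `≤ y`; `Nat.nth Nat.Prime k`: the prime `p_{k+1}`; `Polynomial ℤ`.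
-/

set_option autoImplicit false

namespace Pool.Agent.Results.MP_0ec542_nt.ChenAvoidingClassesShifts

open Finset Filter

open Classical in
/-- the number of the residue classes `x` modulo `q` such that `x (N - x) ≡ 0` or `x ≡ e` for some `e ∈ E` -/
noncomputable def rho (N : ℕ) (E : Finset ℤ) (q : ℕ) : ℕ :=
  ((range q).filter (fun x : ℕ => (q : ℤ) ∣ (x : ℤ) * ((N : ℤ) - x) ∨ ∃ e ∈ E, (q : ℤ) ∣ x - e)).card

/-- the number of the residue classes `x` modulo `q` such that `x (N - x) ≡ 0`, or `f (x) ≡ 0` and `q ≥ w` -/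
noncomputable def rhoP (N w : ℕ) (f : Polynomial ℤ) (q : ℕ) : ℕ :=
  ((range q).filter (fun x : ℕ => (q : ℤ) ∣ (x : ℤ) * ((N : ℤ) - x) ∨ (w ≤ q ∧ (q : ℤ) ∣ f.eval (x : ℤ)))).card

/-- `N = p + k`, where `p` is a prime larger than `N ^ (1/t)` and `k ≥ 1` has at most two prime factors (with
multiplicity), all of them larger than `N ^ (1/9)` and `N ^ (1/t)` -/
def Rep (t N p : ℕ) : Prop :=
  p.Prime ∧ (N : ℝ) ^ (1 / (t : ℝ)) < p ∧ p < N ∧ (N - p).primeFactorsList.length ≤ 2 ∧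
    ∀ q : ℕ, q.Prime → q ∣ N - p → (N : ℝ) ^ (1 / 9 : ℝ) < q ∧ (N : ℝ) ^ (1 / (t : ℝ)) < q

open Classical in
/-- the representations with `p ∈ (A, B]` which avoid the classes `E q` modulo `q` for all primes `q ≤ N ^ (1/t)` -/
noncomputable def G (t N A B : ℕ) (E : ℕ → Finset ℤ) : Finset ℕ :=
  (Ioc A B).filter (fun p : ℕ => Rep t N p ∧ ∀ q : ℕ, q.Prime → (q : ℝ) ≤ (N : ℝ) ^ (1 / (t : ℝ)) →
    ∀ e ∈ E q, ¬ (q : ℤ) ∣ p - e)

/-- at most `r` classes modulo every prime `q`, and no obstruction modulo `q` -/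
def Adm (r N : ℕ) (E : ℕ → Finset ℤ) : Prop :=
  ∀ q : ℕ, q.Prime → (E q).card ≤ r ∧ rho N (E q) q < q

/-- the sieve product -/
noncomputable def W (N : ℕ) (ρ : ℕ → ℕ) : ℝ :=
  ∏ q ∈ (Icc 1 N).filter Nat.Prime, (1 - (ρ q : ℝ) / q)

open Classical in
/-- the representations with `p ∈ (A, B]` such that `f (p) ≠ 0` has at most `R` prime factors `q ≥ w`
(with multiplicity), all of them larger than `N ^ (1/t)` -/
noncomputable def P (t R w N A B : ℕ) (f : Polynomial ℤ) : Finset ℕ :=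
  (Ioc A B).filter (fun p : ℕ => Rep t N p ∧ f.eval (p : ℤ) ≠ 0 ∧
    (∀ q : ℕ, q.Prime → w ≤ q → (q : ℤ) ∣ f.eval (p : ℤ) → (N : ℝ) ^ (1 / (t : ℝ)) < q) ∧
    ((f.eval (p : ℤ)).natAbs.primeFactorsList.filter (fun q => decide (w ≤ q))).length ≤ R)

/-- the degree of `f` is at most `r`, the coefficients are at most `N ^ m` in absolute value, and no prime `q ≥ w`
divides all the values of `x (N - x) f (x)` -/
def Poly (r m w N : ℕ) (f : Polynomial ℤ) : Prop :=
  f.natDegree ≤ r ∧ (∀ i, |f.coeff i| ≤ (N : ℤ) ^ m) ∧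
    ∀ q : ℕ, q.Prime → w ≤ q → ∃ x : ℤ, ¬ (q : ℤ) ∣ x * (N - x) * f.eval x

/-- the product of `1 - 1/p` over the primes `p ≤ y` -/
noncomputable def V (y : ℕ) : ℝ := ∏ p ∈ (Icc 1 y).filter Nat.Prime, (1 - 1 / (p : ℝ))

open Classical in
/-- The `q ∈ Q` such that `p_{q+2} + h` is prime (`p_{q+2}` is the prime number `q + 2`, counted from `p_1 = 2`). -/
noncomputable def Good (Q : Finset ℕ) (h : ℕ) : Finset ℕ := Q.filter (fun q => (Nat.nth Nat.Prime (q + 1) + h).Prime)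

/-- For every `y` between `K₀ log log n` and `K₁ log log n` and every window `(g₀, g₀ + H]` with `M (g₀ + H) ≤ n` and
`H ≥ n / (M log ^ C n)`, `M` the product of the primes `≤ y`, apart from at most `ε H` of the `g ≤ H` the shift
`h = M (g₀ + g)` is such that `p_{q+2} + h` is prime for at least `(1 - ε) / (V y log n)` times `#Q` elements `q` of `Q`. -/
def Shifts (ε : ℝ) (C K₀ K₁ n : ℕ) (Q : Finset ℕ) : Prop :=
  ∀ y : ℕ, K₀ * Real.log (Real.log n) ≤ y → y ≤ K₁ * Real.log (Real.log n) →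
    ∀ g₀ H : ℕ, primorial y * (g₀ + H) ≤ n → (n : ℝ) ≤ primorial y * H * Real.log n ^ C →
      (((Icc 1 H).filter (fun g => ((Good Q (primorial y * (g₀ + g))).card : ℝ) <
        (1 - ε) * (Q.card / (V y * Real.log n)))).card : ℝ) ≤ ε * H

/-- the theorem on the shifts for sets with the lower bound of the sieve -/
lemma shifts_of (r C : ℕ) (c θ ε : ℝ) (hc : 0 < c) (hθ : 0 < θ) (hε : 0 < ε) (hε1 : ε ≤ 1) : ∃ K₀ : ℕ, ∀ K₁ : ℕ,
    ∃ n₀ : ℕ, ∀ n : ℕ, n₀ ≤ n → ∀ Q : Finset ℕ, Q ⊆ range (2 * n) → ∀ X v : ℝ, θ * (2 * n : ℕ) ≤ X →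
      c / Real.log (2 * n : ℕ) ^ (r + 2) ≤ v → c * X * v ≤ (Q.card : ℝ) → Shifts ε C K₀ K₁ n Q := by
  obtain ⟨c', hc', H⟩ := ChenIndexShifts.result
  obtain ⟨K₀, hK₀⟩ := H (r + 3) C ε hε hε1
  refine ⟨K₀, fun K₁ => ?_⟩
  obtain ⟨n₀, hn₀⟩ := hK₀ K₁
  obtain ⟨n1, h1⟩ := Pool.Agent.H373R2.T7.ev_L' (max 1 (2 ^ (r + 2) / (2 * c ^ 2 * θ)))
  refine ⟨n₀ + n1 + 4, fun n hn Q hQ X v hX hv hcard => ?_⟩
  have a0 := h1 n (by omega)
  have a1 : 1 ≤ Real.log n := (le_max_left _ _).trans a0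
  have a2 : 2 ^ (r + 2) / (2 * c ^ 2 * θ) ≤ Real.log n := (le_max_right _ _).trans a0
  have hnr : (4 : ℝ) ≤ n := by exact_mod_cast (by omega : 4 ≤ n)
  have hL0 : 0 < Real.log n := by linarith
  have hlog2 : Real.log ((2 * n : ℕ) : ℝ) ≤ 2 * Real.log n := by
    push_cast
    have := Real.log_le_log (by linarith : (0 : ℝ) < 2 * n) (by nlinarith : (2 : ℝ) * n ≤ n ^ 2)
    rwa [Real.log_pow, Nat.cast_ofNat] at this
  have hlogm : 0 < Real.log ((2 * n : ℕ) : ℝ) := by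
    have : Real.log n ≤ Real.log ((2 * n : ℕ) : ℝ) :=
      Real.log_le_log (by linarith) (by push_cast; linarith)
    linarith
  have hv2 : c / (2 * Real.log n) ^ (r + 2) ≤ v := by
    refine le_trans ?_ hv
    apply div_le_div_of_nonneg_left hc.le (by positivity)
    exact pow_le_pow_left₀ hlogm.le hlog2 _
  have hv0 : 0 ≤ v := le_trans (by positivity) hv2
  have hlow : (n : ℝ) ≤ Q.card * Real.log n ^ (r + 3) := by
    have h3 : c * (θ * (2 * n : ℕ)) * (c / (2 * Real.log n) ^ (r + 2)) ≤ Q.card := by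
      refine le_trans ?_ hcard
      apply mul_le_mul (mul_le_mul_of_nonneg_left hX hc.le) hv2 (by positivity)
      exact mul_nonneg hc.le (le_trans (by positivity) hX)
    have h4 : c * (θ * (2 * n : ℕ)) * (c / (2 * Real.log n) ^ (r + 2)) * (2 * Real.log n) ^ (r + 2) =
        2 * c ^ 2 * θ * n := by
      push_cast
      field_simp
    have h5 : 2 * c ^ 2 * θ * n ≤ Q.card * (2 * Real.log n) ^ (r + 2) := by
      rw [← h4]
      exact mul_le_mul_of_nonneg_right h3 (by positivity)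
    rw [div_le_iff₀ (by positivity)] at a2
    have h6 : Q.card * (2 * Real.log n) ^ (r + 2) * 1 ≤
        (Q.card : ℝ) * Real.log n ^ (r + 2) * (Real.log n * (2 * c ^ 2 * θ)) := by
      rw [mul_pow, mul_one]
      have h7 : (0 : ℝ) ≤ Q.card * Real.log n ^ (r + 2) := by positivity
      calc (Q.card : ℝ) * (2 ^ (r + 2) * Real.log n ^ (r + 2)) = Q.card * Real.log n ^ (r + 2) * 2 ^ (r + 2) := by ring
        _ ≤ _ := mul_le_mul_of_nonneg_left a2 h7
    have h8 : (2 * c ^ 2 * θ) * n ≤ (2 * c ^ 2 * θ) * (Q.card * Real.log n ^ (r + 3)) := by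
      calc (2 * c ^ 2 * θ) * (n : ℝ) ≤ Q.card * (2 * Real.log n) ^ (r + 2) := h5
        _ ≤ (Q.card : ℝ) * Real.log n ^ (r + 2) * (Real.log n * (2 * c ^ 2 * θ)) := by linarith
        _ = _ := by ring
    exact le_of_mul_le_mul_left h8 (by positivity)
  intro y hy1 hy2 g₀ G' hg1 hg2
  exact (hn₀ n (by omega) y hy1 hy2 g₀ G' hg1 hg2).1 Q hQ hlow

/-- For every `r` there are `t` and `c > 0` such that for all `m` and `w` there is `R` such that the following holds for all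
`θ > 0`, `C` and `0 < ε ≤ 1`, with a suitable `K₀`, for every `K₁` and every large `n`. Let `(A, B]` be an interval of length at
least `2 θ n` in `[0, 2 n]`.

* For all `E` with `Adm r (2 n) E` the set `G` of the representations of `2 n` with `q ∈ (A, B]` which avoid the classes `E` has
  at least `c (B - A) W` elements, where `W ≥ c / log ^ (r + 2)` is the sieve product, and for almost all shifts `h` the
  number `p_{q+2} + h` is prime for the expected proportion of its elements `q` (`Shifts`).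
* For all polynomials `f` with `Poly r m w (2 n) f` the same holds for the set `P` of the representations for which `f (q)`
  is almost prime. -/
theorem result (r : ℕ) : ∃ t : ℕ, 1 ≤ t ∧ ∃ c : ℝ, 0 < c ∧ ∀ m w : ℕ, ∃ R : ℕ,
    ∀ θ : ℝ, 0 < θ → ∀ (C : ℕ) (ε : ℝ), 0 < ε → ε ≤ 1 → ∃ K₀ : ℕ, ∀ K₁ : ℕ, ∃ n₀ : ℕ, ∀ n : ℕ, n₀ ≤ n →
    ∀ A B : ℕ, B ≤ 2 * n → θ * (2 * n : ℕ) ≤ (B : ℝ) - A →
    (∀ E : ℕ → Finset ℤ, Adm r (2 * n) E →
      c * ((B : ℝ) - A) * W (2 * n) (fun q => rho (2 * n) (E q) q) ≤ ((G t (2 * n) A B E).card : ℝ) ∧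
      c / Real.log (2 * n : ℕ) ^ (r + 2) ≤ W (2 * n) (fun q => rho (2 * n) (E q) q) ∧
      Shifts ε C K₀ K₁ n (G t (2 * n) A B E)) ∧
    (∀ f : Polynomial ℤ, Poly r m w (2 * n) f →
      c * ((B : ℝ) - A) * W (2 * n) (rhoP (2 * n) w f) ≤ ((P t R w (2 * n) A B f).card : ℝ) ∧
      c / Real.log (2 * n : ℕ) ^ (r + 2) ≤ W (2 * n) (rhoP (2 * n) w f) ∧
      Shifts ε C K₀ K₁ n (P t R w (2 * n) A B f)) := by
  classical
  obtain ⟨t, ht, c, hc, h1, -, h3⟩ := MP_dd84fd_nt.ChenAvoidingClasses.result r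
  refine ⟨t, ht, c, hc, fun m w => ?_⟩
  obtain ⟨R, h4, -⟩ := h3 m w
  refine ⟨R, fun θ hθ C ε hε hε1 => ?_⟩
  obtain ⟨N₁, g1⟩ := h1 θ hθ
  obtain ⟨N₂, g2⟩ := h4 θ hθ
  obtain ⟨K₀, hK₀⟩ := shifts_of r C c θ ε hc hθ hε hε1
  refine ⟨K₀, fun K₁ => ?_⟩
  obtain ⟨n₀, hn₀⟩ := hK₀ K₁
  refine ⟨N₁ + N₂ + n₀, fun n hn A B hB hAB => ⟨fun E hE => ?_, fun f hf => ?_⟩⟩
  · obtain ⟨a1, a2⟩ := g1 (2 * n) (by omega) E hE A B hB hAB
    refine ⟨a1, a2, hn₀ n (by omega) _ ?_ ((B : ℝ) - A) _ hAB a2 a1⟩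
    intro p hp
    unfold G at hp
    exact mem_range.2 (mem_filter.1 hp).2.1.2.2.1
  · obtain ⟨a1, a2⟩ := g2 (2 * n) (by omega) (even_two_mul n) f hf A B hB hAB
    refine ⟨a1, a2, hn₀ n (by omega) _ ?_ ((B : ℝ) - A) _ hAB a2 a1⟩
    intro p hp
    unfold P at hp
    exact mem_range.2 (mem_filter.1 hp).2.1.2.2.1

end Pool.Agent.Results.MP_0ec542_nt.ChenAvoidingClassesShifts
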