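import Pool.Agent.Q26.IX.K

/-!
# Both conditions after the addition of very few elements of arbitrary sets to the even number and to the shift

In the question one looks for a prime `q` with `N - q` and `p_{q + 2} + 2` prime, `N = 2 n`. Here `N` and `2` may be replaced by
arbitrary integers `N`, `h`, and the answer is given for ALL integers close to `N + ∑_{x ∈ S 0} x` and `h + ∑_{x ∈ S 1} x`, where
`S 0`, `S 1` are sets of at most `C (log log X) ^ 2` elements of arbitrary sets `T 0`, `T 1` (given in advance), and for an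
arbitrary set `Q` of primes `q`.
-/

set_option autoImplicit false

namespace Pool.Agent.Results.MP_0ec542_nt.CorrectedEvensAndShifts

open Finset

/-- `p k` is the `k`-th prime, `p 1 = 2`. -/
noncomputable def p (k : ℕ) : ℕ := Nat.nth Nat.Prime (k - 1)

open Classical in
/-- The number of the `q` in `Q` for which `N - q` and `p_{q + 2} + h` are both prime. -/
noncomputable def primes (Q : Finset ℕ) (N h : ℤ) : ℕ :=
  (Q.filter fun q : ℕ => (∃ r : ℕ, r.Prime ∧ (r : ℤ) = N - q) ∧ ∃ r : ℕ, r.Prime ∧ (r : ℤ) = p (q + 2) + h).card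

/-- The integer `x` is positive and has no prime factor up to `z`. -/
def Rough (z : ℕ) (x : ℤ) : Prop := 1 ≤ x ∧ ∀ r : ℕ, r.Prime → r ≤ z → ¬ (r : ℤ) ∣ x

open Classical in
/-- The number of the `q` in `Q` for which `N - q` and `p_{q + 2} + h` are both positive without prime factor up to `z`. -/
noncomputable def rough (Q : Finset ℕ) (z : ℕ) (N h : ℤ) : ℕ :=
  (Q.filter fun q : ℕ => Rough z (N - q) ∧ Rough z (p (q + 2) + h)).card

/-- `V(z) = ∏_{r ≤ z} (1 - 1 / r)`, `r` prime -/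
noncomputable def V (z : ℕ) : ℝ := ∏ r ∈ (Icc 1 z).filter Nat.Prime, (1 - 1 / (r : ℝ))

/-- The number of the `q` in `Q` with two primes is `T = rough / (V(z) log X) ^ 2` up to `ε T + X / log ^ A X`. -/
def Formula (ε : ℝ) (A X z : ℕ) (Q : Finset ℕ) (N h : ℤ) : Prop :=
  |(primes Q N h : ℝ) - rough Q z N h / (V z * Real.log X) ^ 2| ≤
    ε * (rough Q z N h / (V z * Real.log X) ^ 2) + X / Real.log X ^ A

/-- **Both conditions, after a correction by very few elements of arbitrary sets.** Let `l ≥ 2`, `P ≥ 1`, `R` and `A` be given.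
There is `C` such that for all `H`, `B` there is `B₀` such that for all `E` and `ε > 0` there is `X₀` with the following property.
Let `T 0`, `T 1` be ARBITRARY sets of integers, each of which contains an element of every interval `[x, l x]` with
`x ≥ 1` (`X₀` and `C` do not depend on them). Let `X ≥ X₀`, `log ^ B₀ X ≤ z ≤ log ^ E X`, let `N`, `h` be ARBITRARY integers with
`|N|, |h| ≤ B X` (for example `h = 2`), and let `Q` be an ARBITRARY set of primes `q` with `p_{q + 2} ≤ X`. There are sets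
`S i` of at most `C (log log X) ^ 2` elements of `T i`, all between `log ^ H X` and `X / log ^ H X`, whose sums are divisible
by `P`, such that ALL integers `N'`, `h'` with `|N' - (N + ∑_{x ∈ S 0} x)| ≤ log ^ R X` and
`|h' - (h + ∑_{x ∈ S 1} x)| ≤ log ^ R X` satisfy the formula for the number of the `q` in `Q` such that `N' - q` and
`p_{q + 2} + h'` are prime. -/
theorem result (l P R A : ℕ) (hl : 2 ≤ l) (hP : 1 ≤ P) : ∃ C : ℝ, ∀ H B : ℕ, ∃ B₀ : ℕ, ∀ (E : ℕ) (ε : ℝ), 0 < ε →
    ∃ X₀ : ℕ, ∀ T : Fin 2 → Set ℕ, (∀ i, ∀ x : ℕ, 1 ≤ x → ∃ a ∈ T i, x ≤ a ∧ a ≤ l * x) → ∀ X : ℕ, X₀ ≤ X →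
    ∀ z : ℕ, Real.log X ^ B₀ ≤ z → (z : ℝ) ≤ Real.log X ^ E → ∀ N h : ℤ, |N| ≤ (B : ℤ) * X → |h| ≤ (B : ℤ) * X →
    ∀ Q : Finset ℕ, (∀ q ∈ Q, q.Prime ∧ p (q + 2) ≤ X) →
    ∃ S : Fin 2 → Finset ℕ, (∀ i, ∀ x ∈ S i, x ∈ T i ∧ Real.log X ^ H ≤ x ∧ (x : ℝ) ≤ X / Real.log X ^ H) ∧
      (∀ i, ((S i).card : ℝ) ≤ C * Real.log (Real.log X) ^ 2) ∧ (∀ i, P ∣ ∑ x ∈ S i, x) ∧
      ∀ N' h' : ℤ, ((|N' - (N + ∑ x ∈ S 0, (x : ℤ))| : ℤ) : ℝ) ≤ Real.log X ^ R →
        ((|h' - (h + ∑ x ∈ S 1, (x : ℤ))| : ℤ) : ℝ) ≤ Real.log X ^ R → Formula ε A X z Q N' h' := by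
  obtain ⟨C, h0⟩ := Pool.Agent.Q26.IX.ix_las 2 l P R A (by norm_num) hl hP
  refine ⟨C, fun H B => ?_⟩
  obtain ⟨B₀, h1⟩ := h0 H B
  refine ⟨B₀, fun E ε hε => ?_⟩
  obtain ⟨X₀, h2⟩ := h1 E ε hε
  refine ⟨X₀, fun T hT X hX z hz1 hz2 N h hN hh Q hQ => ?_⟩
  obtain ⟨S, g1, g2, g3, g4⟩ := h2 T hT X hX z hz1 hz2 (fun i => if i = 0 then N else h) (by
      intro i
      split_ifs
      · exact hN
      · exact hh) Q (fun i => if i = 0 then -1 else 1) (fun i q => if i = 0 then q else p (q + 2)) (by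
      intro i
      split_ifs
      · exact Or.inr rfl
      · exact Or.inl rfl) (by
      intro i q hq
      obtain ⟨hq1, hq2⟩ := hQ q hq
      have e1 : q ≤ p q := Pool.Agent.Q26.IX.le_pp q
      have e2 : p q ≤ p (q + 2) := Pool.Agent.Q26.IX.pp_le (by omega)
      split_ifs
      · exact ⟨hq1.one_le, by omega⟩
      · exact ⟨(Nat.prime_nth_prime _).one_le, hq2⟩) (by
      intro i q _ r _ hqr
      dsimp only at hqr
      split_ifs at hqr
      · exact hqr
      · have := Pool.Agent.Q26.IX.pp_inj (by omega) (by omega) hqr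
        omega)
  refine ⟨S, g1, g2, g3, fun N' h' hN' hh' => ?_⟩
  have h3 := g4 (fun i => if i = 0 then N' else h') (by
    rw [Fin.forall_fin_two]
    refine ⟨?_, ?_⟩
    · simpa using hN'
    · simpa using hh')
  have e1 : Pool.Agent.Q26.IX.prm Q (fun i : Fin 2 => if i = 0 then -1 else 1) (fun (i : Fin 2) q => if i = 0 then q else p (q + 2))
      (fun i => if i = 0 then N' else h') = primes Q N' h' := by
    unfold Pool.Agent.Q26.IX.prm primes Pool.Agent.Q26.IX.IsP
    apply congrArg card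
    ext q
    simp only [mem_filter, Fin.forall_fin_two]
    simp [neg_add_eq_sub]
  have e2 : Pool.Agent.Q26.IX.rgh Q z (fun i : Fin 2 => if i = 0 then -1 else 1) (fun (i : Fin 2) q => if i = 0 then q else p (q + 2))
      (fun i => if i = 0 then N' else h') = rough Q z N' h' := by
    unfold Pool.Agent.Q26.IX.rgh rough Pool.Agent.Q26.IX.IsR Rough
    apply congrArg card
    ext q
    simp only [mem_filter, Fin.forall_fin_two]
    simp [neg_add_eq_sub]
  rw [e1, e2] at h3
  exact h3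

end Pool.Agent.Results.MP_0ec542_nt.CorrectedEvensAndShifts
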