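import Pool.Agent.Results.MP_0ec542_nt.ChenIndexShifts
import Pool.Agent.Results.MP_bae66e_nt.ThinFamilySmallPrimes
import Pool.Agent.Q56.TF.Typ
import Pool.Agent.Q56.TF.Ord

/-!
# Goldbach representations `2 n = p + q` with `p_{q+2} + h` prime: all even numbers near real sequences, almost all `h`

The question asks, for every `n > 2`, for a prime `q` such that `2 n - q` and `p_{q+2} + 2` are primes. Here the shift `2` is
replaced by almost all `h` of arbitrary short windows of the multiples of a small primorial, and the even numbers `2 n` are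
arbitrary with `|2 n - r j| ≤ log ^ A₀ N`, for almost all `j ≤ x`, where `r 1, ..., r x` is an arbitrary family of real numbers
of nearly minimal energy; for instance the (real) values `β + κ f j` of a polynomial `f` with integer coefficients, with
arbitrary real `κ ≠ 0` and `β`, or `β + j ^ c` with `c > 1` not an integer.

From Mathlib: `primorial y`: the product of the primes `≤ y`; `Nat.nth Nat.Prime k`: the prime `p_{k+1}`; `Polynomial ℤ`,
`f.eval m`. The proof joins the theorem of the starting files on Goldbach pairs for families of small energy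
(`Pool.Agent.TH935.GF.fam_win`) with their theorem on the shifts (`Pool.Agent.Results.MP_0ec542_nt.ChenIndexShifts`).
-/

set_option autoImplicit false

namespace Pool.Agent.Results.MP_0ec542_nt.EvensNearRealSequences

open Finset

open Classical in
/-- The energy of order `p` of the family of real numbers `r 1, ..., r x`: the number of the pairs `v`, `w` of
`p`-tuples of elements of `{1, ..., x}` such that `r (v 1) + ... + r (v p)` and `r (w 1) + ... + r (w p)` differ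
by at most `1`. -/
noncomputable def energy (p x : ℕ) (r : ℕ → ℝ) : ℕ :=
  (((Fintype.piFinset fun _ : Fin p => Icc 1 x) ×ˢ (Fintype.piFinset fun _ : Fin p => Icc 1 x)).filter
    (fun q => |∑ i, r (q.1 i) - ∑ i, r (q.2 i)| ≤ 1)).card

/-- The twin prime constant `C₂ = ∏_{p > 2} (1 - 1 / (p - 1) ^ 2)`: the infimum of the decreasing partial products
over the primes `3 ≤ p ≤ z`. -/
noncomputable def C₂ : ℝ := ⨅ z : ℕ, ∏ p ∈ (Icc 3 z).filter Nat.Prime, (1 - 1 / ((p : ℝ) - 1) ^ 2)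

/-- The singular series `2 C₂ ∏_{p ∣ m, p > 2} (p - 1) / (p - 2)`. -/
noncomputable def sing (m : ℕ) : ℝ :=
  2 * C₂ * ∏ p ∈ m.primeFactors.filter (fun p => 2 < p), ((p : ℝ) - 1) / ((p : ℝ) - 2)

/-- the product of `1 - 1/p` over the primes `p ≤ y` -/
noncomputable def V (y : ℕ) : ℝ := ∏ p ∈ (Icc 1 y).filter Nat.Prime, (1 - 1 / (p : ℝ))

/-- The primes `q < 2 n` such that `2 n - q` is a prime. -/
def Pairs (n : ℕ) : Finset ℕ := (range (2 * n)).filter (fun q => q.Prime ∧ (2 * n - q).Prime)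

open Classical in
/-- The `q ∈ Q` such that `p_{q+2} + h` is prime (`p_{q+2}` is the prime number `q + 2`, counted from `p_1 = 2`). -/
noncomputable def Good (Q : Finset ℕ) (h : ℕ) : Finset ℕ := Q.filter (fun q => (Nat.nth Nat.Prime (q + 1) + h).Prime)

/-- The number `2 n` has the property: (1) the number of the primes `q < 2 n` with `2 n - q` prime is as predicted, up to a
relative error of at most `ε`; (2) for every `y` between `K₀ log log n` and `K₁ log log n` and every window `(g₀, g₀ + G]` with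
`M (g₀ + G) ≤ n` and `G ≥ n / (M log ^ C n)`, `M` the product of the primes `≤ y`, apart from at most `ε G` of the `g ≤ G` the
shift `h = M (g₀ + g)` satisfies: at least `(1 - ε) / (V y log n)` times the number of these `q` are such that `p_{q+2} + h` is
prime. -/
def Rep (ε : ℝ) (C K₀ K₁ n : ℕ) : Prop :=
  |((Pairs n).card : ℝ) - sing (2 * n) * (2 * n : ℕ) / Real.log (2 * n : ℕ) ^ 2| ≤
    ε * (sing (2 * n) * (2 * n : ℕ) / Real.log (2 * n : ℕ) ^ 2) ∧
  ∀ y : ℕ, K₀ * Real.log (Real.log n) ≤ y → y ≤ K₁ * Real.log (Real.log n) →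
    ∀ g₀ G : ℕ, primorial y * (g₀ + G) ≤ n → (n : ℝ) ≤ primorial y * G * Real.log n ^ C →
      (((Icc 1 G).filter (fun g => ((Good (Pairs n) (primorial y * (g₀ + g))).card : ℝ) <
        (1 - ε) * ((Pairs n).card / (V y * Real.log n)))).card : ℝ) ≤ ε * G

open Classical in
/-- The number of the `j` in `{1, ..., x}` for which not all even integers `2 n > 0` at a distance of at most `w` from
`r j` have the property `P`. -/
noncomputable def exceptions (x : ℕ) (r : ℕ → ℝ) (w : ℝ) (P : ℕ → Prop) : ℕ :=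
  ((Icc 1 x).filter (fun j => ∃ n : ℕ, 0 < n ∧ |((2 * n : ℕ) : ℝ) - r j| ≤ w ∧ ¬ P n)).card

/-- The bound at scale `N` for the windows around the `r j`, `j ≤ x`: for all `j ≤ x` with at most `x / log ^ U N`
exceptions all even integers `2 n > 0` with `|2 n - r j| ≤ log ^ A₀ N` have the property `Rep`. -/
def Holds (ε : ℝ) (A₀ C K₀ K₁ U N x : ℕ) (r : ℕ → ℝ) : Prop :=
  (exceptions x r (Real.log N ^ A₀) (Rep ε C K₀ K₁) : ℝ) ≤ x / Real.log N ^ U

/-- The sequence `f`, of growth `x ^ e`, has the property at all large scales: for all `x` with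
`N / log ^ C' N ≤ x ^ e ≤ B N` and all translates `β + f j`, `|β| ≤ B N`. -/
def Sequence (ε : ℝ) (A₀ B C C' K₀ K₁ U : ℕ) (f : ℕ → ℝ) (e : ℝ) : Prop :=
  ∃ N₀ : ℕ, ∀ N : ℕ, N₀ ≤ N → ∀ x : ℕ, (x : ℝ) ^ e ≤ B * N → (N : ℝ) ≤ Real.log N ^ C' * (x : ℝ) ^ e →
    ∀ β : ℝ, |β| ≤ B * N → Holds ε A₀ C K₀ K₁ U N x (fun j => β + f j)

/-- the property holds for the large numbers with the predicted numbers of Goldbach pairs -/
lemma rep_of_win (C : ℕ) (ε : ℝ) (hε : 0 < ε) (hε1 : ε ≤ 1) : ∃ K₀ : ℕ, ∀ K₁ : ℕ, ∃ m₀ : ℕ, ∀ m : ℕ, m₀ ≤ m → 2 ∣ m →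
    Pool.Agent.W93.PG.WinP (min ε (1 / 2)) 1 m → Rep ε C K₀ K₁ (m / 2) := by
  obtain ⟨c, hc, H⟩ := ChenIndexShifts.result
  obtain ⟨K₀, hK₀⟩ := H 4 C ε hε hε1
  refine ⟨K₀, fun K₁ => ?_⟩
  obtain ⟨n₀, hn₀⟩ := hK₀ K₁
  obtain ⟨n1, h1⟩ := Pool.Agent.H373R2.T7.ev_L' 8
  refine ⟨2 * (n₀ + n1 + 4), fun m hm h2 hwin => ?_⟩
  obtain ⟨n, rfl⟩ := h2
  have hn : n₀ + n1 + 4 ≤ n := by omega
  rw [Nat.mul_div_cancel_left _ (by norm_num)]
  have a1 := h1 n (by omega)
  have hnr : (4 : ℝ) ≤ n := by exact_mod_cast (by omega : 4 ≤ n)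
  have hL0 : 0 < Real.log n := by linarith
  have hs := Pool.Agent.W93.GB.one_le_sing (2 * n)
  have hlog2 : Real.log ((2 * n : ℕ) : ℝ) ≤ 2 * Real.log n := by
    push_cast
    have := Real.log_le_log (by linarith : (0 : ℝ) < 2 * n) (by nlinarith : (2 : ℝ) * n ≤ n ^ 2)
    rwa [Real.log_pow, Nat.cast_ofNat] at this
  have hlogm : 1 ≤ Real.log ((2 * n : ℕ) : ℝ) := by
    have : Real.log n ≤ Real.log ((2 * n : ℕ) : ℝ) :=
      Real.log_le_log (by linarith) (by push_cast; linarith)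
    linarith
  have hm0 : (0 : ℝ) ≤ ((2 * n : ℕ) : ℝ) := Nat.cast_nonneg _
  have hw := hwin 0 (2 * n) (by omega) le_rfl (by
    rw [pow_one]
    push_cast
    rw [sub_zero]
    apply div_le_self (by positivity)
    push_cast at hlogm
    exact hlogm)
  have hcnt : Pool.Agent.W93.PG.cnt (2 * n) 0 (2 * n) = (Pairs n).card := by
    unfold Pool.Agent.W93.PG.cnt Pairs
    congr 1
    ext q
    simp only [mem_filter, mem_Ioc, mem_range]
    constructor
    · rintro ⟨⟨_, h3⟩, h4, h5⟩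
      refine ⟨?_, h4, h5⟩
      have := h5.pos
      omega
    · rintro ⟨h3, h4, h5⟩
      exact ⟨⟨h4.pos, h3.le⟩, h4, h5⟩
  rw [hcnt, Nat.cast_zero, sub_zero] at hw
  have hsing : Pool.Agent.H560R3.GB.sing (2 * n) = sing (2 * n) := rfl
  rw [hsing] at hw hs
  have hmain : 0 ≤ sing (2 * n) * ((2 * n : ℕ) : ℝ) / Real.log ((2 * n : ℕ) : ℝ) ^ 2 := by positivity
  refine ⟨hw.trans (mul_le_mul_of_nonneg_right (min_le_left _ _) hmain), ?_⟩
  -- the lower bound for the number of the pairs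
  have hlow : (n : ℝ) ≤ (Pairs n).card * Real.log n ^ 4 := by
    have h6 := hw.trans (mul_le_mul_of_nonneg_right (min_le_right _ _) hmain)
    rw [abs_le] at h6
    have h7 : 1 / 2 * (sing (2 * n) * ((2 * n : ℕ) : ℝ) / Real.log ((2 * n : ℕ) : ℝ) ^ 2) ≤ (Pairs n).card := by
      linarith [h6.1]
    have h8 : ((2 * n : ℕ) : ℝ) / (2 * Real.log n) ^ 2 ≤
        sing (2 * n) * ((2 * n : ℕ) : ℝ) / Real.log ((2 * n : ℕ) : ℝ) ^ 2 := by
      apply div_le_div₀ (by positivity) (by nlinarith) (by positivity)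
      exact pow_le_pow_left₀ (by linarith) hlog2 2
    have h9 : ((2 * n : ℕ) : ℝ) / (2 * Real.log n) ^ 2 ≤ 2 * (Pairs n).card := by linarith
    rw [div_le_iff₀ (by positivity)] at h9
    push_cast at h9
    have h10 : (n : ℝ) ≤ (Pairs n).card * (4 * Real.log n ^ 2) := by nlinarith
    refine h10.trans (mul_le_mul_of_nonneg_left ?_ (Nat.cast_nonneg _))
    have e : Real.log n ^ 4 = Real.log n ^ 2 * Real.log n ^ 2 := by ring
    rw [e]
    apply mul_le_mul_of_nonneg_right _ (by positivity)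
    nlinarith
  intro y hy1 hy2 g₀ G hg1 hg2
  have hsub : Pairs n ⊆ range (2 * n) := filter_subset _ _
  have key := (hn₀ n (by omega) y hy1 hy2 g₀ G hg1 hg2).1 (Pairs n) hsub hlow
  exact key

lemma holds_of (A₀ B' U p C' C : ℕ) (hp : 1 ≤ p) (ε : ℝ) (hε : 0 < ε) (K₀ K₁ m₀ : ℕ)
    (hrep : ∀ m : ℕ, m₀ ≤ m → 2 ∣ m → Pool.Agent.W93.PG.WinP (min ε (1 / 2)) 1 m → Rep ε C K₀ K₁ (m / 2)) :
    ∃ N₀ : ℕ, ∀ N : ℕ, N₀ ≤ N → ∀ (x : ℕ) (r : ℕ → ℝ), Pool.Agent.Q56.TF.Near A₀ p B' C' N x r →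
      Holds ε A₀ C K₀ K₁ U N x r := by
  classical
  obtain ⟨N₁, h1⟩ := Pool.Agent.TH935.GF.transfer p B' C' U (fun m => Rep ε C K₀ K₁ (m / 2)) (by
    intro B C' U
    exact Pool.Agent.TH935.GF.fam_win p B C' 1 U m₀ hp (min ε (1 / 2))
      (lt_min hε (by norm_num)) (fun m => Rep ε C K₀ K₁ (m / 2)) hrep)
  refine ⟨N₁, fun N hN x r hm => ?_⟩
  refine Pool.Agent.Q56.TF.near_types hm (Q := fun a : ℤ => 0 < a ∧ Even a ∧
    ¬ Rep ε C K₀ K₁ (a.toNat / 2)) ?_ _ (filter_subset _ _) ?_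
  · intro ι _ v hv hE S hS
    exact h1 N hN ι v (fun i => (le_abs_self _).trans (hv i)) hE S hS
  · intro j hj
    obtain ⟨_, n, hn0, hn2, hn3⟩ := mem_filter.1 hj
    refine ⟨((2 * n : ℕ) : ℤ), by exact_mod_cast hn2, by exact_mod_cast (by omega : 0 < 2 * n),
      by exact_mod_cast even_two_mul n, ?_⟩
    rw [Int.toNat_natCast, Nat.mul_div_cancel_left _ (by norm_num)]
    exact hn3

lemma sequence_of {f : ℕ → ℝ} {e : ℝ} (h : Pool.Agent.Q56.TF.Base f e) (he : 1 ≤ e) (A₀ B C C' U : ℕ) (ε : ℝ)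
    (hε : 0 < ε) (K₀ K₁ m₀ : ℕ)
    (hrep : ∀ m : ℕ, m₀ ≤ m → 2 ∣ m → Pool.Agent.W93.PG.WinP (min ε (1 / 2)) 1 m → Rep ε C K₀ K₁ (m / 2)) :
    Sequence ε A₀ B C C' K₀ K₁ U f e := by
  obtain ⟨p, B', C'', N₀, h1⟩ := Pool.Agent.Q56.TF.near_base h he A₀ B C'
  obtain ⟨N₁, h2⟩ := holds_of A₀ B' U (p + 1) C'' C (by omega) ε hε K₀ K₁ m₀ hrep
  exact ⟨N₀ + N₁, fun N hN x hx1 hx2 β hβ => h2 N (by omega) x _ ((h1 N (by omega) x hx1 hx2 β hβ).order (by omega))⟩

/-- Let `C` and `0 < ε ≤ 1` be fixed. There is `K₀` such that for all `K₁`, `A₀`, `B`, `C'` and `U`: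

* For every `p` the following holds for all large `N`. Let `r 1, ..., r x` be an arbitrary family of real numbers in
  `[-B N, B N]` with an energy of order `p` of at most `log ^ C' N` times `x ^ (2 p) / N` (the minimal possible order
  of magnitude). For all `j ≤ x` with at most `x / log ^ U N` exceptions, ALL even integers `2 n > 0` with
  `|2 n - r j| ≤ log ^ A₀ N` have the property `Rep`: the number of the primes `q < 2 n` with `2 n - q` prime is as predicted, and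
  for almost all shifts `h` in all windows of the multiples of a small primorial, the expected proportion of these `q`
  are such that `p_{q+2} + h` is prime.
* This holds for `r j = β + κ f j`, `j ≤ x`, where `f` is a fixed nonconstant polynomial with integer
  coefficients, of degree `d`, `κ ≠ 0` is a fixed real number, `β` is any real number with `|β| ≤ B N`, and
  `N / log ^ C' N ≤ x ^ d ≤ B N`.
* This holds for `r j = β + ∑ w_y j ^ y` (a sum over a finite set `F` of real exponents `y`), if the largest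
  exponent `e` is greater than `1` and not an integer, `w_e ≠ 0`, `|β| ≤ B N` and `N / log ^ C' N ≤ x ^ e ≤ B N`; for
  instance for `r j = β + j ^ e`. -/
theorem result (C : ℕ) (ε : ℝ) (hε : 0 < ε) (hε1 : ε ≤ 1) : ∃ K₀ : ℕ, ∀ K₁ A₀ B C' U : ℕ,
    (∀ p : ℕ, ∃ N₀ : ℕ, ∀ N : ℕ, N₀ ≤ N → ∀ (x : ℕ) (r : ℕ → ℝ), (∀ m ∈ Icc 1 x, |r m| ≤ B * N) →
      (energy p x r : ℝ) * N ≤ Real.log N ^ C' * (x : ℝ) ^ (2 * p) → Holds ε A₀ C K₀ K₁ U N x r) ∧
    (∀ f : Polynomial ℤ, 1 ≤ f.natDegree → ∀ κ : ℝ, κ ≠ 0 →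
      Sequence ε A₀ B C C' K₀ K₁ U (fun m => κ * ((f.eval (m : ℤ) : ℤ) : ℝ)) f.natDegree) ∧
    (∀ (F : Finset ℝ) (w : ℝ → ℝ) (e : ℝ), e ∈ F → (∀ y ∈ F, y ≤ e) → w e ≠ 0 → 1 < e → (∀ k : ℕ, e ≠ k) →
      Sequence ε A₀ B C C' K₀ K₁ U (fun m => ∑ y ∈ F, w y * (m : ℝ) ^ y) e) := by
  classical
  obtain ⟨K₀, hK₀⟩ := rep_of_win C ε hε hε1
  refine ⟨K₀, fun K₁ A₀ B C' U => ?_⟩
  obtain ⟨m₀, hrep⟩ := hK₀ K₁
  refine ⟨fun p => ?_, fun f hd κ hκ => ?_, fun F w e heF hmax hwe he hen => ?_⟩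
  · obtain ⟨B', C'', N₀, h1⟩ := Pool.Agent.Q56.TF.near_gen p A₀ B C'
    obtain ⟨N₁, h2⟩ := holds_of A₀ B' U (p + 1) C'' C (by omega) ε hε K₀ K₁ m₀ hrep
    exact ⟨N₀ + N₁, fun N hN x r hr hE => h2 N (by omega) x _ ((h1 N (by omega) x r hr hE).order (by omega))⟩
  · exact sequence_of ((Pool.Agent.Q56.TF.base_poly f hd).dil hκ) (by exact_mod_cast hd) A₀ B C C' U ε hε K₀ K₁ m₀ hrep
  · exact sequence_of (Pool.Agent.Q56.TF.base_gp F w e heF hmax hwe he hen) he.le A₀ B C C' U ε hε K₀ K₁ m₀ hrep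

end Pool.Agent.Results.MP_0ec542_nt.EvensNearRealSequences
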